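import Pool.Agent.Helper6.LPB.St

/-!
# Project LPB (MP_5e9b96_nt), module SPB: the density for one `y`, large primes
-/

set_option autoImplicit false

noncomputable section

namespace Pool.Agent.Helper8.LPB

open Finset
open Pool.Agent.Helper15.AB (StMT)
open Pool.Agent.Helper60.LZ (js bp bl StBAD)
open Pool.Agent.Helper98.LM (QQ)
open Pool.Agent.Helper6.LP
open Pool.Agent.Helper6.LPB

private def MM (y : ℕ) : ℝ := ∑ l ∈ (Icc 1 y).filter Nat.Prime, (1 : ℝ) / l

private theorem qqM {L w : ℕ} (h : L ≤ w) : ∑ l ∈ QQ L w, (1 : ℝ) / l = MM w - MM L := by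
  have h1 : (Icc 1 w).filter Nat.Prime = (Icc 1 L).filter Nat.Prime ∪ QQ L w := by
    ext l
    unfold QQ
    simp only [mem_union, mem_filter, mem_Icc, mem_Ioc]
    constructor
    · rintro ⟨⟨h1, h2⟩, h3⟩
      by_cases h4 : l ≤ L
      · exact Or.inl ⟨⟨h1, h4⟩, h3⟩
      · exact Or.inr ⟨⟨by omega, h2⟩, h3⟩
    · rintro (⟨⟨h1, h2⟩, h3⟩ | ⟨⟨h1, h2⟩, h3⟩)
      · exact ⟨⟨h1, by omega⟩, h3⟩
      · exact ⟨⟨by omega, h2⟩, h3⟩
  have hd : Disjoint ((Icc 1 L).filter Nat.Prime) (QQ L w) := by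
    rw [Finset.disjoint_left]
    intro l h1 h2
    unfold QQ at h2
    simp only [mem_filter, mem_Icc, mem_Ioc] at h1 h2
    omega
  unfold MM
  rw [h1, sum_union hd]
  ring

private theorem qqU {a b c : ℕ} (h1 : a ≤ b) (h2 : b ≤ c) :
    QQ a c = QQ a b ∪ QQ b c ∧ Disjoint (QQ a b) (QQ b c) := by
  constructor
  · ext l
    unfold QQ
    simp only [mem_union, mem_filter, mem_Ioc]
    constructor
    · rintro ⟨⟨h1, h2⟩, h3⟩
      by_cases h4 : l ≤ b
      · exact Or.inl ⟨⟨h1, h4⟩, h3⟩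
      · exact Or.inr ⟨⟨by omega, h2⟩, h3⟩
    · rintro (⟨⟨h1, h2⟩, h3⟩ | ⟨⟨h1, h2⟩, h3⟩)
      · exact ⟨⟨h1, by omega⟩, h3⟩
      · exact ⟨⟨by omega, h2⟩, h3⟩
  · rw [Finset.disjoint_left]
    intro l h1 h2
    unfold QQ at h1 h2
    simp only [mem_filter, mem_Ioc] at h1 h2
    omega

private theorem split2 (f : ℕ → ℝ) {b j0 : ℕ} (h0 : b < 2 ^ j0) : ∀ I : ℕ, j0 ≤ I →
    ∑ l ∈ QQ b (2 ^ I - 1), f l =
      ∑ l ∈ QQ b (2 ^ j0 - 1), f l + ∑ j ∈ Ico j0 I, ∑ l ∈ bp j, f l := by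
  intro I hI
  induction I, hI using Nat.le_induction with
  | base => simp
  | succ J hJ ih =>
    have hp : 2 ^ j0 ≤ 2 ^ J := Nat.pow_le_pow_right (by norm_num) hJ
    have hs : 2 ^ (J + 1) = 2 * 2 ^ J := by rw [pow_succ]; ring
    have h : QQ b (2 ^ (J + 1) - 1) = QQ b (2 ^ J - 1) ∪ bp J := by
      ext l
      unfold QQ bp
      simp only [mem_union, mem_filter, mem_Ioc, mem_Ico]
      rw [hs]
      constructor
      · rintro ⟨⟨h1, h2⟩, h3⟩
        by_cases h5 : l < 2 ^ J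
        · exact Or.inl ⟨⟨h1, by omega⟩, h3⟩
        · exact Or.inr ⟨⟨by omega, by omega⟩, h3⟩
      · rintro (⟨⟨h1, h2⟩, h3⟩ | ⟨⟨h1, h2⟩, h3⟩)
        · exact ⟨⟨h1, by omega⟩, h3⟩
        · exact ⟨⟨by omega, by omega⟩, h3⟩
    have hd : Disjoint (QQ b (2 ^ J - 1)) (bp J) := by
      rw [Finset.disjoint_left]
      intro l h1 h2
      unfold QQ at h1
      unfold bp at h2
      simp only [mem_filter, mem_Ioc, mem_Ico] at h1 h2
      omega
    rw [h, sum_union hd, ih, Finset.sum_Ico_succ_top hJ]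
    ring

private theorem js_le (t l : ℕ) : |js t l| ≤ 1 := by
  unfold js
  rcases jacobiSym.trichotomy ((t : ℤ) ^ 2 - 4) l with h | h | h <;> rw [h] <;> norm_num

private theorem js_div (t l : ℕ) : -(1 / (l : ℝ)) ≤ js t l / l := by
  have h1 := js_le t l
  have h2 : (0 : ℝ) ≤ l := Nat.cast_nonneg l
  rw [← neg_div]
  exact div_le_div_of_nonneg_right (abs_le.1 h1).1 h2

private theorem ss_le (y l : ℕ) : (SS 1 0 y l).card ≤ l := by
  unfold SS
  exact (card_filter_le _ _).trans (by simp)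

private theorem fac (y l : ℕ) : 0 ≤ 1 - ((SS 1 0 y l).card : ℝ) / l ∧
    1 - ((SS 1 0 y l).card : ℝ) / l ≤ 1 := by
  have h1 : ((SS 1 0 y l).card : ℝ) ≤ l := by exact_mod_cast ss_le y l
  have h2 : (0 : ℝ) ≤ l := Nat.cast_nonneg l
  have h3 : ((SS 1 0 y l).card : ℝ) / l ≤ 1 := div_le_one_of_le₀ h1 h2
  have h4 : 0 ≤ ((SS 1 0 y l).card : ℝ) / l := by positivity
  constructor <;> linarith

private theorem vv_split {z w y : ℕ} (h1 : 32 ≤ z) (h2 : z ≤ w) :
    VV 32 w 1 0 y ≤ VV 32 z 1 0 y * Real.exp (-∑ l ∈ QQ z w, ((SS 1 0 y l).card : ℝ) / l) := by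
  obtain ⟨e, hd⟩ := qqU h1 h2
  unfold VV
  rw [e, prod_union hd]
  apply mul_le_mul_of_nonneg_left _ (prod_nonneg fun l _ => (fac y l).1)
  rw [← sum_neg_distrib, Real.exp_sum]
  exact prod_le_prod (fun l _ => (fac y l).1) fun l _ => Real.one_sub_le_exp_neg _

private theorem vv_one (z y : ℕ) : 0 ≤ VV 32 z 1 0 y ∧ VV 32 z 1 0 y ≤ 1 := by
  unfold VV
  exact ⟨prod_nonneg fun l _ => (fac y l).1,
    prod_le_one (fun l _ => (fac y l).1) fun l _ => (fac y l).2⟩

private theorem few {B z K w y : ℕ} (hz : 40 ≤ z) (hK : K < (z + 1) ^ B) (hy : 5 ≤ y)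
    (hyK : y ≤ K) :
    ((QQ z w).filter (fun l => l ∣ y * (y - 4) * (y + 1) * (2 * y + 1))).card ≤ 8 * B + 1 := by
  set E := y * (y - 4) * (y + 1) * (2 * y + 1) with hE
  set F := (QQ z w).filter (fun l => l ∣ E) with hF
  have hE0 : 0 < E := by
    have : 0 < y - 4 := by omega
    positivity
  have hE1 : E ≤ 6 * K ^ 4 := by
    calc E ≤ K * K * (2 * K) * (3 * K) := by
          rw [hE]
          gcongr
          · omega
          · omega
          · omega
      _ = 6 * K ^ 4 := by ring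
  have hdv : ∏ l ∈ F, l ∣ E := by
    apply Finset.prod_primes_dvd
    · intro l hl
      rw [hF, mem_filter] at hl
      unfold QQ at hl
      exact (mem_filter.1 hl.1).2.prime
    · intro l hl
      rw [hF, mem_filter] at hl
      exact hl.2
  have h1 : z ^ F.card ≤ ∏ l ∈ F, l := by
    rw [← prod_const]
    apply prod_le_prod' 
    intro l hl
    rw [hF, mem_filter] at hl
    unfold QQ at hl
    have := (mem_Ioc.1 (mem_filter.1 hl.1).1).1
    omega
  have h2 : K ^ 4 ≤ z ^ (8 * B) := by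
    calc K ^ 4 ≤ ((z + 1) ^ B) ^ 4 := Nat.pow_le_pow_left hK.le 4
      _ ≤ ((z ^ 2) ^ B) ^ 4 := by
          gcongr
          nlinarith
      _ = z ^ (8 * B) := by
          rw [← pow_mul, ← pow_mul]
          congr 1
          ring
  have h3 : z ^ F.card ≤ z ^ (8 * B + 1) := by
    calc z ^ F.card ≤ ∏ l ∈ F, l := h1
      _ ≤ E := Nat.le_of_dvd hE0 hdv
      _ ≤ 6 * K ^ 4 := hE1
      _ ≤ z * z ^ (8 * B) := Nat.mul_le_mul (by omega) h2
      _ = z ^ (8 * B + 1) := by rw [pow_succ]; ring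
  exact (Nat.pow_le_pow_iff_right (by omega)).1 h3

/-- the lower bound for the number of classes, summed -/
private theorem low (hL : StLOL) {B z K w y : ℕ} (hz : 40 ≤ z) (hK : K < (z + 1) ^ B)
    (hy : 5 ≤ y) (hyK : y ≤ K) :
    2 * ∑ l ∈ QQ z w, (1 : ℝ) / l + ∑ l ∈ QQ z w, js (y - 2) l / l - (8 * B + 1) ≤
      ∑ l ∈ QQ z w, ((SS 1 0 y l).card : ℝ) / l := by
  set E := y * (y - 4) * (y + 1) * (2 * y + 1) with hE
  have hc := few (w := w) hz hK hy hyK
  rw [← hE] at hc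
  have h1 : ∀ l ∈ QQ z w, 2 * ((1 : ℝ) / l) + js (y - 2) l / l - (if l ∣ E then (1 : ℝ) else 0) ≤
      ((SS 1 0 y l).card : ℝ) / l := by
    intro l hl
    unfold QQ at hl
    rw [mem_filter, mem_Ioc] at hl
    obtain ⟨⟨l1, l2⟩, l3⟩ := hl
    have hl0 : (40 : ℝ) ≤ l := by exact_mod_cast (by omega : 40 ≤ l)
    split_ifs with h
    · have a1 := js_le (y - 2) l
      have a2 : js (y - 2) l / l ≤ 1 / l :=
        div_le_div_of_nonneg_right (abs_le.1 a1).2 (by linarith)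
      have a3 : (1 : ℝ) / l ≤ 1 / 40 := one_div_le_one_div_of_le (by norm_num) hl0
      have a4 : 0 ≤ ((SS 1 0 y l).card : ℝ) / l := by positivity
      linarith
    · have a1 := hL y l l3 (by omega) hy h
      have a2 : (2 + js (y - 2) l) / l ≤ ((SS 1 0 y l).card : ℝ) / l :=
        div_le_div_of_nonneg_right a1 (by linarith)
      rw [add_div] at a2
      have a3 : 2 * ((1 : ℝ) / l) = 2 / l := by ring
      rw [a3]
      linarith
  have h2 := sum_le_sum h1
  rw [sum_sub_distrib, sum_add_distrib, ← mul_sum, ← sum_filter, sum_const, nsmul_eq_mul,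
    mul_one] at h2
  have h3 : (((QQ z w).filter (fun l => l ∣ E)).card : ℝ) ≤ 8 * B + 1 := by exact_mod_cast hc
  linarith

theorem hSPB (hL : StLOL) (hM : StMT) : StSPB := by
  obtain ⟨C0, hC0, hM⟩ := hM
  have hMM : ∀ y : ℕ, 3 ≤ y → |MM y - Real.log (Real.log y)| ≤ C0 := by
    intro y hy
    have h := hM (y : ℝ) (by exact_mod_cast hy)
    rw [Nat.floor_natCast] at h
    exact h
  intro B hB
  have hl2 : 0 < Real.log 2 := Real.log_pos (by norm_num)
  have hl2' : Real.log 2 < 1 := by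
    have := Real.log_two_lt_d9
    linarith
  have hll2 : Real.log (Real.log 2) < 0 := Real.log_neg hl2 hl2'
  have hBr : (1 : ℝ) ≤ B := by exact_mod_cast hB
  have hl8 : 0 < Real.log (8 * B + 2) := Real.log_pos (by linarith)
  set D : ℝ := (8 * B + 1) + (4 * C0 + 2 * Real.log 2 - 2 * Real.log (Real.log 2)) +
    (2 * C0 + Real.log (8 * B + 2)) + (2 * C0 + Real.log 2) with hD
  have hD0 : 0 ≤ D := by
    rw [hD]
    linarith
  refine ⟨Real.exp D, Real.one_le_exp hD0, 40, le_refl _, ?_⟩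
  intro z K j0 j1 I y hz hzK hKz h0 h512 h01 h1I hy hyK
  have hzr : (40 : ℝ) ≤ z := by exact_mod_cast hz
  have hlz : 0 < Real.log z := Real.log_pos (by linarith)
  have hzK' : z ≤ K := (Nat.le_self_pow (by omega) z).trans hzK
  have hK4 : K ≤ K ^ 4 := Nat.le_self_pow (by norm_num) K
  have hz0 : z < 2 ^ j0 := by omega
  have hp1 : 2 ^ j0 ≤ 2 ^ j1 := Nat.pow_le_pow_right (by norm_num) h01
  have hpI : 2 ^ j1 ≤ 2 ^ I := Nat.pow_le_pow_right (by norm_num) h1I
  have hj1 : 1 ≤ j0 := by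
    by_contra hc
    have : j0 = 0 := by omega
    rw [this] at hz0
    omega
  have hI0 : (0 : ℝ) < I := by exact_mod_cast (by omega : 0 < I)
  have hj10 : (0 : ℝ) < j1 := by exact_mod_cast (by omega : 0 < j1)
  have hv := vv_split (z := z) (w := 2 ^ I - 1) (y := y) (by omega) (by omega)
  have hlow := low hL (w := 2 ^ I - 1) hz hKz hy hyK
  rw [qqM (by omega : z ≤ 2 ^ I - 1)] at hlow
  have hsp := split2 (fun l => js (y - 2) l / l) hz0 I (h01.trans h1I)
  have hbl : ∀ j, ∑ l ∈ bp j, (fun l : ℕ => js (y - 2) l / l) l = bl (y - 2) j := fun j => rfl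
  simp only [hbl] at hsp
  rw [hsp] at hlow
  -- logarithms of powers of two
  have hlo : ∀ j : ℕ, 16 ≤ 2 ^ j → 1 ≤ j →
      Real.log j + Real.log (Real.log 2) - Real.log 2 ≤ Real.log (Real.log ((2 ^ j - 1 : ℕ) : ℝ)) := by
    intro j hj hj1
    have hjr : (0 : ℝ) < j := by exact_mod_cast hj1
    have e8 : (2 : ℝ) ^ j ≤ ((2 ^ j - 1 : ℕ) : ℝ) ^ 2 := by
      have e9 : 2 ^ j ≤ (2 ^ j - 1) ^ 2 := by
        obtain ⟨u, hu⟩ : ∃ u, 2 ^ j = u + 1 := ⟨2 ^ j - 1, by omega⟩
        rw [hu, Nat.add_sub_cancel]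
        have e11 : 15 ≤ u := by omega
        nlinarith
      exact_mod_cast e9
    have e12 := Real.log_le_log (by positivity) e8
    rw [Real.log_pow, Real.log_pow, Nat.cast_ofNat] at e12
    have e13 : Real.log (j * Real.log 2 / 2) ≤ Real.log (Real.log ((2 ^ j - 1 : ℕ) : ℝ)) := by
      apply Real.log_le_log (by positivity)
      linarith
    rw [Real.log_div (by positivity) (by norm_num), Real.log_mul hjr.ne' hl2.ne'] at e13
    linarith
  have hup : ∀ j : ℕ, 16 ≤ 2 ^ j → 1 ≤ j →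
      Real.log (Real.log ((2 ^ j - 1 : ℕ) : ℝ)) ≤ Real.log j + Real.log (Real.log 2) := by
    intro j hj hj1
    have hjr : (0 : ℝ) < j := by exact_mod_cast hj1
    have e4 : ((2 ^ j - 1 : ℕ) : ℝ) ≤ (2 : ℝ) ^ j := by
      exact_mod_cast (by omega : 2 ^ j - 1 ≤ 2 ^ j)
    have e5 : (1 : ℝ) < ((2 ^ j - 1 : ℕ) : ℝ) := by exact_mod_cast (by omega : 1 < 2 ^ j - 1)
    have e6 := Real.log_le_log (by linarith) e4
    rw [Real.log_pow] at e6
    rw [← Real.log_mul hjr.ne' hl2.ne']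
    exact Real.log_le_log (Real.log_pos e5) e6
  have e1 := (abs_le.1 (hMM (2 ^ I - 1) (by omega))).1
  have e2 := (abs_le.1 (hMM z (by omega))).2
  have e3 := hlo I (by omega) (by omega)
  -- the primes below `2 ^ j0`
  have hfirst : -(2 * C0 + Real.log (8 * B + 2)) ≤ ∑ l ∈ QQ z (2 ^ j0 - 1), js (y - 2) l / l := by
    have f1 : -∑ l ∈ QQ z (2 ^ j0 - 1), (1 : ℝ) / l ≤ ∑ l ∈ QQ z (2 ^ j0 - 1), js (y - 2) l / l := by
      rw [← sum_neg_distrib]
      exact sum_le_sum fun l _ => js_div _ _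
    rw [qqM (by omega : z ≤ 2 ^ j0 - 1)] at f1
    have f2 := (abs_le.1 (hMM (2 ^ j0 - 1) (by omega))).2
    have f3 := (abs_le.1 (hMM z (by omega))).1
    have f4 : 2 ^ j0 - 1 ≤ z ^ (8 * B + 2) := by
      calc 2 ^ j0 - 1 ≤ 512 * K ^ 4 := by omega
        _ ≤ z ^ 2 * z ^ (8 * B) := by
            apply Nat.mul_le_mul
            · nlinarith
            · calc K ^ 4 ≤ ((z + 1) ^ B) ^ 4 := Nat.pow_le_pow_left hKz.le 4
                _ ≤ ((z ^ 2) ^ B) ^ 4 := by
                    gcongr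
                    nlinarith
                _ = z ^ (8 * B) := by
                    rw [← pow_mul, ← pow_mul]
                    congr 1
                    ring
        _ = z ^ (8 * B + 2) := by rw [← pow_add]; congr 1; ring
    have f5 : Real.log (Real.log ((2 ^ j0 - 1 : ℕ) : ℝ)) ≤ Real.log (8 * B + 2) + Real.log (Real.log z) := by
      rw [← Real.log_mul (by linarith) hlz.ne']
      have e5 : (1 : ℝ) < ((2 ^ j0 - 1 : ℕ) : ℝ) := by exact_mod_cast (by omega : 1 < 2 ^ j0 - 1)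
      apply Real.log_le_log (Real.log_pos e5)
      have e6 : ((2 ^ j0 - 1 : ℕ) : ℝ) ≤ (z : ℝ) ^ (8 * B + 2) := by exact_mod_cast f4
      have e7 := Real.log_le_log (by linarith) e6
      rw [Real.log_pow] at e7
      push_cast at e7
      exact e7
    linarith
  have hneg : ∀ s : Finset ℕ, -∑ j ∈ s, |bl (y - 2) j| ≤ ∑ j ∈ s, bl (y - 2) j := by
    intro s
    rw [← sum_neg_distrib]
    exact sum_le_sum fun j _ => neg_abs_le _
  have hsq : (Real.log z / I) ^ 2 = Real.exp (2 * (Real.log (Real.log z) - Real.log I)) := by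
    rw [← Real.log_div hlz.ne' hI0.ne', two_mul, Real.exp_add, Real.exp_log (by positivity)]
    ring
  obtain ⟨v0, v1⟩ := vv_one z y
  constructor
  · refine hv.trans ?_
    rw [hsq]
    have g : Real.exp (-∑ l ∈ QQ z (2 ^ I - 1), ((SS 1 0 y l).card : ℝ) / l) ≤
        Real.exp D * (Real.exp (2 * (Real.log (Real.log z) - Real.log I)) *
          Real.exp (∑ j ∈ Ico j0 I, |bl (y - 2) j|)) := by
      rw [← Real.exp_add, ← Real.exp_add]
      apply Real.exp_le_exp.2
      have := hneg (Ico j0 I)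
      rw [hD]
      linarith
    calc VV 32 z 1 0 y * Real.exp (-∑ l ∈ QQ z (2 ^ I - 1), ((SS 1 0 y l).card : ℝ) / l)
        ≤ VV 32 z 1 0 y * (Real.exp D * (Real.exp (2 * (Real.log (Real.log z) - Real.log I)) *
          Real.exp (∑ j ∈ Ico j0 I, |bl (y - 2) j|))) := mul_le_mul_of_nonneg_left g v0
      _ = _ := by ring
  · have hv' : VV 32 (2 ^ I - 1) 1 0 y ≤
        Real.exp (-∑ l ∈ QQ z (2 ^ I - 1), ((SS 1 0 y l).card : ℝ) / l) :=
      hv.trans (mul_le_of_le_one_left (Real.exp_pos _).le v1)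
    refine hv'.trans ?_
    have hq : (I : ℝ) / j1 = Real.exp (Real.log I - Real.log j1) := by
      rw [← Real.log_div hI0.ne' hj10.ne', Real.exp_log (by positivity)]
    rw [hsq, hq, ← Real.exp_add, ← Real.exp_add, ← Real.exp_add]
    apply Real.exp_le_exp.2
    have h2 := hneg (Ico j0 j1)
    rw [← Finset.sum_Ico_consecutive (fun j => bl (y - 2) j) h01 h1I] at hlow
    have h3 : -(2 * C0 + Real.log 2 + (Real.log I - Real.log j1)) ≤
        ∑ j ∈ Ico j1 I, bl (y - 2) j := by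
      have s1 := split2 (fun l => (1 : ℝ) / l) (hz0.trans_le hp1) I h1I
      have s2 : -∑ j ∈ Ico j1 I, ∑ p ∈ bp j, (1 : ℝ) / p ≤ ∑ j ∈ Ico j1 I, bl (y - 2) j := by
        rw [← sum_neg_distrib]
        refine sum_le_sum fun j _ => ?_
        unfold bl
        rw [← sum_neg_distrib]
        exact sum_le_sum fun l _ => js_div _ _
      rw [qqM (by omega : z ≤ 2 ^ I - 1), qqM (by omega : z ≤ 2 ^ j1 - 1)] at s1
      have u1 := (abs_le.1 (hMM (2 ^ I - 1) (by omega))).2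
      have u2 := (abs_le.1 (hMM (2 ^ j1 - 1) (by omega))).1
      have u3 := hup I (by omega) (by omega)
      have u4 := hlo j1 (by omega) (by omega)
      linarith
    rw [hD]
    linarith

end Pool.Agent.Helper8.LPB
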